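import Pool.Agent.W649.ZL.Supp
import Pool.Agent.W649.ZL.Fam
import Pool.Agent.W649.ZL.Mat
import Pool.Agent.V1132.KD.Main
import Pool.Agent.V1132.KD.Gen

set_option autoImplicit false
set_option linter.unusedSectionVars false

universe u

namespace Pool.Agent.Results.MP_95030e_al.RationalPolynomials

open Pool.Agent

/-- The kernel of right multiplication by the matrix `A` over the complex group ring on row vectors
of length `m` over `l2(G)`: all square-summable `x` with `x A = 0`. -/
def kernel {G : Type u} [Group G] {m l : ℕ} (A : Matrix (Fin m) (Fin l) (G →₀ ℂ)) :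
    Set (lp (fun _ : Fin m × G => ℂ) 2) :=
  {x | ∀ (j : Fin l) (g : G),
    ∑ k : Fin m, ∑ h ∈ (A k j).support, x (k, g * h⁻¹) * A k j h = 0}

open Classical in
/-- The von Neumann dimension of that kernel: the sum over `i` of one minus the square of the
distance from the basis vector at `(i, 1)` to the kernel, that is, the sum of the squared lengths
of the projections of these vectors to the kernel. -/
noncomputable def kerDim {G : Type u} [Group G] {m l : ℕ}
    (A : Matrix (Fin m) (Fin l) (G →₀ ℂ)) : ℝ :=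
  ∑ i : Fin m, (1 - Metric.infDist
    (lp.single (E := fun _ : Fin m × G => ℂ) 2 (i, (1 : G)) (1 : ℂ)) (kernel A) ^ 2)

/-- The value `A 0 + z A 1 + ... + z ^ D A D` of a matrix polynomial at `z`. -/
noncomputable def value {G : Type u} {D m l : ℕ}
    (A : Fin (D + 1) → Matrix (Fin m) (Fin l) (G →₀ ℂ)) (z : ℂ) :
    Matrix (Fin m) (Fin l) (G →₀ ℂ) :=
  ∑ k : Fin (D + 1), z ^ (k : ℕ) • A k

/-- A rational matrix as a complex matrix. -/
noncomputable def complex {G : Type u} {m l : ℕ} (A : Matrix (Fin m) (Fin l) (G →₀ ℚ)) :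
    Matrix (Fin m) (Fin l) (G →₀ ℂ) :=
  fun i j => (A i j).mapRange (fun q : ℚ => (q : ℂ)) Rat.cast_zero

/-- The value `A 0 + q A 1 + ... + q ^ D A D` of a rational matrix polynomial at the rational number
`q`. -/
noncomputable def valueQ {G : Type u} {D m l : ℕ}
    (A : Fin (D + 1) → Matrix (Fin m) (Fin l) (G →₀ ℚ)) (q : ℚ) :
    Matrix (Fin m) (Fin l) (G →₀ ℚ) :=
  ∑ k : Fin (D + 1), q ^ (k : ℕ) • A k

/-- Linear combinations (used in the proof only). -/
noncomputable def comb {G : Type u} {p m l : ℕ} (M : Fin p → Matrix (Fin m) (Fin l) (G →₀ ℂ))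
    (a : Fin p → ℂ) : Matrix (Fin m) (Fin l) (G →₀ ℂ) :=
  ∑ i, a i • M i

section
variable {G : Type u} [Group G] {m l : ℕ}

/-- The elementary operators. -/
noncomputable def fam0 (T : Finset G) (m l : ℕ) :
    T × Fin m × Fin l → W649.ZL.EE G (Fin m) →L[ℂ] W649.ZL.EE G (Fin l) :=
  W649.ZL.famR (fun i : T × Fin m × Fin l => (i.1 : G)) (fun i => i.2.1) (fun i => i.2.2)

/-- The operator of a matrix with entries supported in `T`. -/
noncomputable def op (T : Finset G) (A : Matrix (Fin m) (Fin l) (G →₀ ℂ)) :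
    W649.ZL.EE G (Fin m) →L[ℂ] W649.ZL.EE G (Fin l) :=
  W649.ZL.lin (fam0 T m l) (W649.ZL.coefT T A)

theorem op_eqv (T : Finset G) (A : Matrix (Fin m) (Fin l) (G →₀ ℂ)) : W649.ZL.Eqv (op T A) :=
  W649.ZL.lin_eqv _ (W649.ZL.famR_eqv _ _ _) _

theorem op_add (T : Finset G) (A B : Matrix (Fin m) (Fin l) (G →₀ ℂ)) :
    op T (A + B) = op T A + op T B := by
  unfold op W649.ZL.lin
  rw [← Finset.sum_add_distrib]
  refine Finset.sum_congr rfl fun i _ => ?_
  rw [← add_smul]
  rfl

theorem op_smul (T : Finset G) (c : ℂ) (A : Matrix (Fin m) (Fin l) (G →₀ ℂ)) :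
    op T (c • A) = c • op T A := by
  unfold op W649.ZL.lin
  rw [Finset.smul_sum]
  refine Finset.sum_congr rfl fun i _ => ?_
  rw [smul_smul]
  rfl

theorem op_comb (T : Finset G) {p : ℕ} (M : Fin p → Matrix (Fin m) (Fin l) (G →₀ ℂ))
    (a : Fin p → ℂ) : op T (comb M a) = ∑ i, a i • op T (M i) := by
  let L : Matrix (Fin m) (Fin l) (G →₀ ℂ) →ₗ[ℂ]
      (W649.ZL.EE G (Fin m) →L[ℂ] W649.ZL.EE G (Fin l)) :=
    { toFun := op T
      map_add' := op_add T
      map_smul' := op_smul T }
  have h := map_sum L (fun i => a i • M i) Finset.univ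
  change op T (∑ i, a i • M i) = _
  refine h.trans ?_
  refine Finset.sum_congr rfl fun i _ => ?_
  exact L.map_smul _ _

theorem kerDim_eq (T : Finset G) (A : Matrix (Fin m) (Fin l) (G →₀ ℂ))
    (hT : ∀ i j, (A i j).support ⊆ T) :
    kerDim A = W649.ZL.vd (LinearMap.ker
      (op T A : W649.ZL.EE G (Fin m) →ₗ[ℂ] W649.ZL.EE G (Fin l))) := by
  change _ = W649.ZL.kd (fam0 T m l) (W649.ZL.coefT T A)
  unfold fam0
  rw [← W649.ZL.kerDimM_eq, W649.ZL.matM_coefT T A hT]
  unfold kerDim W649.ZL.kerDimM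
  congr!

theorem supp_comb (T : Finset G) {p : ℕ} (M : Fin p → Matrix (Fin m) (Fin l) (G →₀ ℂ))
    (hM : ∀ i s t, (M i s t).support ⊆ T) (a : Fin p → ℂ) (s : Fin m) (t : Fin l) :
    ((comb M a) s t).support ⊆ T := by
  classical
  intro x hx
  rw [Finsupp.mem_support_iff] at hx
  by_contra hne
  apply hx
  unfold comb
  rw [Matrix.sum_apply, Finsupp.finsetSum_apply]
  apply Finset.sum_eq_zero
  intro i _
  have : M i s t x = 0 := by
    by_contra h
    exact hne (hM i s t (Finsupp.mem_support_iff.2 h))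
  change a i * M i s t x = 0
  rw [this, mul_zero]


theorem kerDim_value {D : ℕ} (T : Finset G) (A : Fin (D + 1) → Matrix (Fin m) (Fin l) (G →₀ ℂ))
    (hT : ∀ k i j, (A k i j).support ⊆ T) (z : ℂ) :
    kerDim (value A z) = W649.ZL.vd (V1132.KD.kr (V1132.KD.pv D
      (fun k => if h : k < D + 1 then op T (A ⟨k, h⟩) else 0) z)) := by
  have h1 : value A z = comb A (fun k => z ^ (k : ℕ)) := rfl
  have h2 : op T (comb A (fun k => z ^ (k : ℕ))) = V1132.KD.pv D
      (fun k => if h : k < D + 1 then op T (A ⟨k, h⟩) else 0) z := by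
    rw [op_comb]
    unfold V1132.KD.pv
    rw [Finset.sum_range]
    refine Finset.sum_congr rfl fun k _ => ?_
    simp only [k.2, dif_pos, Fin.eta]
  rw [h1, kerDim_eq T _ (supp_comb T A hT _), h2]

theorem bound {D : ℕ} (A : Fin (D + 1) → Matrix (Fin m) (Fin l) (G →₀ ℂ)) (w : ℂ)
    (S : Finset ℂ) :
    ∑ z ∈ S, (kerDim (value A z) - kerDim (value A w)) ≤ D * (m - kerDim (value A w)) := by
  classical
  let T : Finset G := Finset.univ.biUnion fun k : Fin (D + 1) =>
    Finset.univ.biUnion fun i : Fin m => Finset.univ.biUnion fun j : Fin l => (A k i j).support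
  have hT : ∀ k i j, (A k i j).support ⊆ T := by
    intro k i j x hx
    simp only [T, Finset.mem_biUnion, Finset.mem_univ, true_and]
    exact ⟨k, i, j, hx⟩
  simp only [kerDim_value T A hT]
  have h := V1132.KD.bez D (fun k => if h : k < D + 1 then op T (A ⟨k, h⟩) else 0) (by
    intro k
    by_cases hk : k < D + 1
    · rw [dif_pos hk]
      exact op_eqv _ _
    · rw [dif_neg hk]
      intro g f
      change (0 : W649.ZL.EE G (Fin l)) = W649.ZL.tr g 0
      rw [W649.ZL.tr_zero]) w S
  rw [Fintype.card_fin] at h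
  exact h

theorem kerDim_nonneg (A : Matrix (Fin m) (Fin l) (G →₀ ℂ)) : 0 ≤ kerDim A := by
  classical
  let T : Finset G :=
    Finset.univ.biUnion fun i : Fin m => Finset.univ.biUnion fun j : Fin l => (A i j).support
  have hT : ∀ i j, (A i j).support ⊆ T := by
    intro i j x hx
    simp only [T, Finset.mem_biUnion, Finset.mem_univ, true_and]
    exact ⟨i, j, hx⟩
  rw [kerDim_eq T A hT]
  exact W649.ZL.vd_nonneg _

end

theorem complex_valueQ {G : Type u} {D m l : ℕ}
    (A : Fin (D + 1) → Matrix (Fin m) (Fin l) (G →₀ ℚ)) (q : ℚ) :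
    complex (valueQ A q) = value (fun k => complex (A k)) (q : ℂ) := by
  funext i j
  ext g
  unfold complex valueQ value
  rw [Finsupp.mapRange_apply, Matrix.sum_apply, Matrix.sum_apply, Finsupp.finsetSum_apply,
    Finsupp.finsetSum_apply, Rat.cast_sum]
  refine Finset.sum_congr rfl fun k _ => ?_
  change ((q ^ (k : ℕ) * A k i j g : ℚ) : ℂ) = (q : ℂ) ^ (k : ℕ) * ((A k i j g : ℚ) : ℂ)
  push_cast
  ring

/-- **Kernel dimensions along a rational matrix polynomial.** Let `G` be any group and let
`P(q) = A₀ + q A₁ + ... + q ^ D A_D` be a polynomial whose coefficients are `m × l` matrices over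
the rational group ring; write `dim P(q)` for the von Neumann dimension of the kernel of right
multiplication by `P(q)` on `ℓ²(G)^m`. There is a real number `g ≥ 0` such that

1. `dim P(q) ≥ g` for all rational numbers `q`, and `∑_{q ∈ S} (dim P(q) - g) ≤ D (m - g)` for every
   finite set `S` of rational numbers;
2. `dim P(z) ≥ g` for all complex numbers `z`, with equality for all but countably many `z`;
3. `dim P(q_n)` converges to `g` for every sequence of distinct rational numbers `q_n`;
4. if all the numbers `dim P(q)`, `q` rational, are integers, then `g` is an integer, and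
   `dim P(q) = g` for all but at most `D (m - g)` rational numbers `q`. -/
theorem result {G : Type u} [Group G] {D m l : ℕ}
    (A : Fin (D + 1) → Matrix (Fin m) (Fin l) (G →₀ ℚ)) :
    ∃ g : ℝ, 0 ≤ g ∧
      (∀ q : ℚ, g ≤ kerDim (complex (valueQ A q))) ∧
      (∀ S : Finset ℚ, ∑ q ∈ S, (kerDim (complex (valueQ A q)) - g) ≤ D * (m - g)) ∧
      (∀ z : ℂ, g ≤ kerDim (value (fun k => complex (A k)) z)) ∧
      {z : ℂ | kerDim (value (fun k => complex (A k)) z) ≠ g}.Countable ∧
      (∀ u : ℕ → ℚ, Function.Injective u →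
        Filter.Tendsto (fun n => kerDim (complex (valueQ A (u n)))) Filter.atTop (nhds g)) ∧
      ((∀ q : ℚ, ∃ k : ℤ, kerDim (complex (valueQ A q)) = k) →
        (∃ k : ℤ, g = k) ∧ {q : ℚ | kerDim (complex (valueQ A q)) ≠ g}.Finite ∧
          ({q : ℚ | kerDim (complex (valueQ A q)) ≠ g}.ncard : ℝ) ≤ D * (m - g)) := by
  classical
  obtain ⟨g, hg0, hgle, hgc, hgS, -⟩ := V1132.KD.generic
    (fun z => kerDim (value (fun k => complex (A k)) z)) (fun z => kerDim_nonneg _) D m
    (fun w S => bound (fun k => complex (A k)) w S)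
  have hq : ∀ q : ℚ, kerDim (complex (valueQ A q)) =
      kerDim (value (fun k => complex (A k)) (q : ℂ)) := fun q => by rw [complex_valueQ]
  have hcast : Function.Injective (fun q : ℚ => (q : ℂ)) := Rat.cast_injective
  have hSQ : ∀ S : Finset ℚ, ∑ q ∈ S, (kerDim (complex (valueQ A q)) - g) ≤ D * (m - g) := by
    intro S
    have h1 := hgS (S.image (fun q : ℚ => (q : ℂ)))
    rw [Finset.sum_image (fun a _ b _ hab => hcast hab)] at h1
    simp only [hq]
    exact h1
  have hleQ : ∀ q : ℚ, g ≤ kerDim (complex (valueQ A q)) := fun q => by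
    rw [hq]
    exact hgle _
  have hcard : ∀ (d : ℝ), 0 < d → ∀ S : Finset ℚ,
      (∀ q ∈ S, g + d ≤ kerDim (complex (valueQ A q))) → (S.card : ℝ) * d ≤ D * (m - g) := by
    intro d hd S hS
    refine le_trans ?_ (hSQ S)
    rw [← nsmul_eq_mul, ← Finset.sum_const]
    refine Finset.sum_le_sum fun q hq' => ?_
    have := hS q hq'
    linarith
  have hfin : ∀ d : ℝ, 0 < d → {q : ℚ | g + d ≤ kerDim (complex (valueQ A q))}.Finite := by
    intro d hd
    by_contra hinf
    obtain ⟨n, hn⟩ := exists_nat_gt ((D : ℝ) * (m - g) / d)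
    obtain ⟨S, hS1, hS2⟩ := Set.Infinite.exists_subset_card_eq hinf n
    have h1 := hcard d hd S (fun q hq' => hS1 hq')
    rw [hS2] at h1
    rw [div_lt_iff₀ hd] at hn
    linarith
  refine ⟨g, hg0, hleQ, hSQ, hgle, hgc, ?_, ?_⟩
  · intro u hu
    rw [Metric.tendsto_atTop]
    intro ε hε
    have h1 : (u ⁻¹' {q : ℚ | g + ε ≤ kerDim (complex (valueQ A q))}).Finite :=
      (hfin ε hε).preimage hu.injOn
    obtain ⟨N, hN⟩ := h1.bddAbove
    refine ⟨N + 1, fun n hn => ?_⟩
    have h2 : ¬ g + ε ≤ kerDim (complex (valueQ A (u n))) := by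
      intro h
      have := hN h
      omega
    push Not at h2
    rw [Real.dist_eq, abs_lt]
    have := hleQ (u n)
    constructor <;> linarith
  · intro hint
    choose k hk using hint
    have hgint : ∃ j : ℤ, g = j := by
      by_contra hcon
      push Not at hcon
      have h1 : g < ⌈g⌉ := lt_of_le_of_ne (Int.le_ceil g) (hcon _)
      have h2 : {q : ℚ | g + (⌈g⌉ - g) ≤ kerDim (complex (valueQ A q))} = Set.univ := by
        rw [Set.eq_univ_iff_forall]
        intro q
        have h3 := hleQ q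
        rw [hk] at h3
        have h4 : ⌈g⌉ ≤ k q := Int.ceil_le.2 h3
        change g + (⌈g⌉ - g) ≤ kerDim (complex (valueQ A q))
        rw [hk]
        have h5 : ((⌈g⌉ : ℤ) : ℝ) ≤ (k q : ℝ) := by exact_mod_cast h4
        linarith
      have h3 := hfin (⌈g⌉ - g) (by linarith)
      rw [h2] at h3
      exact Set.infinite_univ h3
    obtain ⟨j, hj⟩ := hgint
    have hsub : {q : ℚ | kerDim (complex (valueQ A q)) ≠ g} =
        {q : ℚ | g + 1 ≤ kerDim (complex (valueQ A q))} := by
      ext q
      change kerDim (complex (valueQ A q)) ≠ g ↔ g + 1 ≤ kerDim (complex (valueQ A q))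
      have h3 := hleQ q
      rw [hk, hj] at h3 ⊢
      have h4 : j ≤ k q := by exact_mod_cast h3
      constructor
      · intro h
        have h5 : j ≠ k q := by
          rintro rfl
          exact h rfl
        have h6 : j + 1 ≤ k q := by omega
        exact_mod_cast h6
      · intro h h5
        rw [h5] at h
        linarith
    refine ⟨⟨j, hj⟩, ?_, ?_⟩
    · rw [hsub]
      exact hfin 1 one_pos
    · rw [hsub, Set.ncard_eq_toFinset_card _ (hfin 1 one_pos)]
      have h1 := hcard 1 one_pos (hfin 1 one_pos).toFinset (fun q hq' => by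
        rw [Set.Finite.mem_toFinset] at hq'
        exact hq')
      rwa [mul_one] at h1

end Pool.Agent.Results.MP_95030e_al.RationalPolynomials
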