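import Pool.Agent.V1132.GE.Closed
import Pool.Agent.V1132.GE.Tr

set_option autoImplicit false
set_option linter.unusedSectionVars false

universe u

namespace Pool.Agent.Results.MP_95030e_al.RationalValues

open MvPolynomial Cardinal Pool.Agent

/-- The kernel of right multiplication by the matrix `A` over the complex group ring on row vectors
of length `m` over `l2(G)`: all square-summable `x` with `x A = 0`. -/
def kernel {G : Type u} [Group G] {m l : ℕ} (A : Matrix (Fin m) (Fin l) (G →₀ ℂ)) :
    Set (lp (fun _ : Fin m × G => ℂ) 2) :=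
  {x | ∀ (j : Fin l) (g : G),
    ∑ k : Fin m, ∑ h ∈ (A k j).support, x (k, g * h⁻¹) * A k j h = 0}

open Classical in
/-- The von Neumann dimension of that kernel: the sum over `i` of one minus the square of the
distance from the basis vector at `(i, 1)` to the kernel, that is, the sum of the squared lengths
of the projections of these vectors to the kernel. -/
noncomputable def kerDim {G : Type u} [Group G] {m l : ℕ}
    (A : Matrix (Fin m) (Fin l) (G →₀ ℂ)) : ℝ :=
  ∑ i : Fin m, (1 - Metric.infDist
    (lp.single (E := fun _ : Fin m × G => ℂ) 2 (i, (1 : G)) (1 : ℂ)) (kernel A) ^ 2)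

/-- All coefficients of `B` lie in `K`. -/
def Over {G : Type u} {m l : ℕ} (K : Subfield ℂ) (B : Matrix (Fin m) (Fin l) (G →₀ ℂ)) : Prop :=
  ∀ i j g, B i j g ∈ K

/-- A rational matrix as a complex matrix. -/
noncomputable def complex {G : Type u} {m l : ℕ} (A : Matrix (Fin m) (Fin l) (G →₀ ℚ)) :
    Matrix (Fin m) (Fin l) (G →₀ ℂ) :=
  fun i j => (A i j).mapRange (fun q : ℚ => (q : ℂ)) Rat.cast_zero

/-- The set of the kernel dimensions of the rational `m × l` matrices over `G` all of whose entries
are supported in the finite set `T`. -/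
def rationalValues {G : Type u} [Group G] (T : Finset G) (m l : ℕ) : Set ℝ :=
  {r | ∃ A : Matrix (Fin m) (Fin l) (G →₀ ℚ), (∀ i j, (A i j).support ⊆ T) ∧
    kerDim (complex A) = r}

/-- The set of the kernel dimensions of the `m × l` matrices over `F[G]` all of whose entries are
supported in the finite set `T`. -/
def values {G : Type u} [Group G] (F : Subfield ℂ) (T : Finset G) (m l : ℕ) : Set ℝ :=
  {r | ∃ A : Matrix (Fin m) (Fin l) (G →₀ ℂ), Over F A ∧ (∀ i j, (A i j).support ⊆ T) ∧
    kerDim A = r}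

section
variable {G : Type u} [Group G] {m l : ℕ}

theorem kerDim_eq (T : Finset G) (A : Matrix (Fin m) (Fin l) (G →₀ ℂ))
    (hT : ∀ i j, (A i j).support ⊆ T) :
    kerDim A = V1132.GE.kdim T m l (W649.ZL.coefT T A) := by
  change _ = W649.ZL.kd (W649.ZL.famR (fun i : T × Fin m × Fin l => (i.1 : G))
    (fun i => i.2.1) (fun i => i.2.2)) (W649.ZL.coefT T A)
  rw [← W649.ZL.kerDimM_eq, W649.ZL.matM_coefT T A hT]
  unfold kerDim W649.ZL.kerDimM
  congr!

open Classical in
/-- the matrix with given coefficients -/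
noncomputable def mat (T : Finset G) (b : T × Fin m × Fin l → ℂ) :
    Matrix (Fin m) (Fin l) (G →₀ ℂ) :=
  fun i j => ∑ t : T, Finsupp.single (t : G) (b (t, i, j))

theorem mat_apply (T : Finset G) (b : T × Fin m × Fin l → ℂ) (i : Fin m) (j : Fin l) (t : T) :
    mat T b i j (t : G) = b (t, i, j) := by
  classical
  unfold mat
  rw [Finsupp.finsetSum_apply, Finset.sum_eq_single t]
  · simp
  · intro s _ hs
    rw [Finsupp.single_apply, if_neg]
    intro h
    exact hs (Subtype.ext h)
  · intro h
    exact absurd (Finset.mem_univ _) h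

theorem mat_apply_of_notMem (T : Finset G) (b : T × Fin m × Fin l → ℂ) (i : Fin m) (j : Fin l)
    (g : G) (hg : g ∉ T) : mat T b i j g = 0 := by
  classical
  unfold mat
  rw [Finsupp.finsetSum_apply]
  apply Finset.sum_eq_zero
  intro s _
  rw [Finsupp.single_apply, if_neg]
  intro h
  apply hg
  rw [← h]
  exact s.2

theorem mat_support (T : Finset G) (b : T × Fin m × Fin l → ℂ) (i : Fin m) (j : Fin l) :
    (mat T b i j).support ⊆ T := by
  intro g hg
  by_contra h
  exact (Finsupp.mem_support_iff.1 hg) (mat_apply_of_notMem T b i j g h)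

theorem coefT_mat (T : Finset G) (b : T × Fin m × Fin l → ℂ) :
    W649.ZL.coefT T (mat T b) = b := by
  funext t
  exact mat_apply T b t.2.1 t.2.2 t.1

theorem values_eq (F : Subfield ℂ) (T : Finset G) (m l : ℕ) :
    values F T m l =
      Set.range (fun v : T × Fin m × Fin l → F => V1132.GE.kdim T m l (V1132.GE.up v)) := by
  ext r
  constructor
  · rintro ⟨A, hA, hT, rfl⟩
    refine ⟨fun t => ⟨W649.ZL.coefT T A t, hA _ _ _⟩, ?_⟩
    rw [kerDim_eq T A hT]
    rfl
  · rintro ⟨v, rfl⟩
    refine ⟨mat T (V1132.GE.up v), ?_, mat_support T _, ?_⟩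
    · intro i j g
      by_cases hg : g ∈ T
      · have h1 := mat_apply T (V1132.GE.up v) i j ⟨g, hg⟩
        rw [h1]
        exact (v _).2
      · rw [mat_apply_of_notMem T _ i j g hg]
        exact F.zero_mem
    · rw [kerDim_eq T _ (mat_support T _), coefT_mat]

theorem kdim_closed (T : Finset G) (m l : ℕ) (d : ℝ) :
    zeroLocus ℂ (vanishingIdeal ℂ {a | d ≤ V1132.GE.kdim T m l a}) =
      {a | d ≤ V1132.GE.kdim T m l a} :=
  W649.ZL.locus_closed (W649.ZL.famR (fun i : T × Fin m × Fin l => (i.1 : G))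
    (fun i => i.2.1) (fun i => i.2.2)) (W649.ZL.famR_eqv _ _ _) d

theorem values_closed (F : Subfield ℂ) [IsAlgClosed F] [Uncountable F] (T : Finset G) (m l : ℕ) :
    IsClosed (values F T m l) := by
  rw [values_eq]
  exact V1132.GE.closed_up (F := F) (V1132.GE.kdim T m l) (kdim_closed T m l)

theorem values_bdd (F : Subfield ℂ) (T : Finset G) (m l : ℕ) :
    values F T m l ⊆ Set.Icc (0 : ℝ) m := by
  rw [values_eq]
  rintro _ ⟨v, rfl⟩
  refine ⟨W649.ZL.vd_nonneg _, ?_⟩
  have h := W649.ZL.vd_le_card (LinearMap.ker (W649.ZL.lin (W649.ZL.famR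
    (fun i : T × Fin m × Fin l => (i.1 : G)) (fun i => i.2.1) (fun i => i.2.2))
    (V1132.GE.up v) : W649.ZL.EE G (Fin m) →ₗ[ℂ] W649.ZL.EE G (Fin l)))
  rw [Fintype.card_fin] at h
  exact h

theorem values_max (F : Subfield ℂ) (T : Finset G) (m l : ℕ) (W : Set ℝ)
    (hW : W ⊆ values F T m l) (hne : W.Nonempty) : ∃ r ∈ W, ∀ s ∈ W, s ≤ r := by
  rw [values_eq] at hW
  obtain ⟨p, hp, hmax⟩ := W649.ZL.acc
    (W649.ZL.famR (fun i : T × Fin m × Fin l => (i.1 : G)) (fun i => i.2.1) (fun i => i.2.2))
    (W649.ZL.famR_eqv _ _ _) {p | V1132.GE.kdim T m l p ∈ W} (by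
      obtain ⟨r, hr⟩ := hne
      obtain ⟨v, hv⟩ := hW hr
      refine ⟨V1132.GE.up v, ?_⟩
      change V1132.GE.kdim T m l (V1132.GE.up v) ∈ W
      rw [show V1132.GE.kdim T m l (V1132.GE.up v) = r from hv]
      exact hr)
  refine ⟨V1132.GE.kdim T m l p, hp, fun s hs => ?_⟩
  obtain ⟨v, hv⟩ := hW hs
  have h1 : V1132.GE.kdim T m l (V1132.GE.up v) = s := hv
  rw [← h1]
  apply hmax
  change V1132.GE.kdim T m l (V1132.GE.up v) ∈ W
  rw [h1]
  exact hs

theorem values_countable (F : Subfield ℂ) (T : Finset G) (m l : ℕ) :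
    (values F T m l).Countable := by
  refine (W649.ZL.kd_countable (W649.ZL.famR (fun i : T × Fin m × Fin l => (i.1 : G))
    (fun i => i.2.1) (fun i => i.2.2)) (W649.ZL.famR_eqv _ _ _)).mono ?_
  rw [values_eq]
  rintro _ ⟨v, rfl⟩
  exact ⟨V1132.GE.up v, rfl⟩

theorem values_mono {F K : Subfield ℂ} (h : ∀ x ∈ K, x ∈ F) (T : Finset G) (m l : ℕ) :
    values K T m l ⊆ values F T m l := by
  rintro r ⟨A, hA, hT, hr⟩
  exact ⟨A, fun i j g => h _ (hA i j g), hT, hr⟩

end

section
variable {G : Type u} [Group G] {m l : ℕ}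

theorem kdim_smul (T : Finset G) (c : ℂ) (hc : c ≠ 0) (a : T × Fin m × Fin l → ℂ) :
    V1132.GE.kdim T m l (fun t => c * a t) = V1132.GE.kdim T m l a := by
  unfold V1132.GE.kdim
  congr 1
  have h1 : (fun t => c * a t) = c • a := rfl
  rw [h1, W649.ZL.lin_smul]
  ext f
  rw [LinearMap.mem_ker, LinearMap.mem_ker]
  change c • W649.ZL.lin _ a f = 0 ↔ W649.ZL.lin _ a f = 0
  rw [smul_eq_zero]
  exact ⟨fun h => h.resolve_left hc, Or.inr⟩

end

/-- the index set of the families -/
abbrev Om (G : Type u) := ℕ × ℕ × Finset G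

/-- the families -/
abbrev Ys (G : Type u) (ω : Om G) : Type u := ω.2.2 × Fin ω.1 × Fin ω.2.1

/-- the kernel dimensions -/
noncomputable def kds {G : Type u} [Group G] (ω : Om G) : (Ys G ω → ℂ) → ℝ :=
  V1132.GE.kdim ω.2.2 ω.1 ω.2.1

section
variable {G : Type u} [Group G]

theorem kds_nonneg (ω : Om G) (a : Ys G ω → ℂ) : 0 ≤ kds ω a := by
  unfold kds V1132.GE.kdim
  exact W649.ZL.vd_nonneg _

theorem kds_closed (ω : Om G) (d : ℝ) :
    zeroLocus ℂ (vanishingIdeal ℂ {a | d ≤ kds ω a}) = {a | d ≤ kds ω a} :=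
  W649.ZL.locus_closed (W649.ZL.famR (fun i : ω.2.2 × Fin ω.1 × Fin ω.2.1 => (i.1 : G))
    (fun i => i.2.1) (fun i => i.2.2)) (W649.ZL.famR_eqv _ _ _) d

theorem kds_smul (ω : Om G) (c : ℂ) (a : Ys G ω → ℂ) (hc : c ≠ 0) :
    kds ω (fun t => c * a t) = kds ω a :=
  kdim_smul ω.2.2 c hc a

end

theorem mem_adjoin (K : Subfield ℂ) (S : Set ℂ) (x : ℂ) (hx : x ∈ Subfield.closure (K ∪ S)) :
    x ∈ IntermediateField.adjoin K S := by
  have h2 : Subfield.closure (K ∪ S) ≤ (IntermediateField.adjoin K S).toSubfield := by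
    rw [Subfield.closure_le, Set.union_subset_iff]
    constructor
    · intro a ha
      exact (IntermediateField.adjoin K S).algebraMap_mem ⟨a, ha⟩
    · exact IntermediateField.subset_adjoin K S
  exact h2 hx

/-- the field of rational numbers inside the complex numbers -/
noncomputable def KQ : Subfield ℂ := (algebraMap ℚ ℂ).fieldRange

instance countable_KQ : Countable KQ := by
  have hsurj : Function.Surjective (algebraMap ℚ ℂ).rangeRestrictField := by
    rintro ⟨x, q, rfl⟩
    exact ⟨q, rfl⟩
  exact hsurj.countable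

theorem rationalValues_eq {G : Type u} [Group G] (T : Finset G) (m l : ℕ) :
    rationalValues T m l = values KQ T m l := by
  apply Set.Subset.antisymm
  · rintro r ⟨A, hT, rfl⟩
    refine ⟨complex A, fun i j g => ⟨A i j g, rfl⟩, fun i j => ?_, rfl⟩
    exact (Finsupp.support_mapRange).trans (hT i j)
  · rintro r ⟨B, hB, hT, rfl⟩
    choose q hq using fun i j g => hB i j g
    have hq0 : ∀ i j g, q i j g ≠ 0 → g ∈ (B i j).support := by
      intro i j g hg
      rw [Finsupp.mem_support_iff, ← hq i j g]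
      intro h0
      exact hg ((map_eq_zero (algebraMap ℚ ℂ)).1 h0)
    let A' : Matrix (Fin m) (Fin l) (G →₀ ℚ) := fun i j =>
      Finsupp.onFinset (B i j).support (q i j) (hq0 i j)
    refine ⟨A', fun i j => Finsupp.support_onFinset_subset.trans (hT i j), ?_⟩
    have h4 : complex A' = B := by
      funext i j
      ext g
      change ((q i j g : ℚ) : ℂ) = B i j g
      exact hq i j g
    rw [h4]

/-- **Kernel dimensions of rational matrices.** Let `G` be any group, `T` a finite subset of `G`, and
let `V(ℚ, T, m, l)` be the set of the von Neumann dimensions of the kernels of the rational `m × l`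
matrices over `G` all of whose entries are supported in `T`.

1. `V(ℚ, T, m, l)` is countable and every nonempty subset of it has a largest element; so there is no
   strictly increasing sequence of values, and for every real number `v` there is an `ε > 0` such
   that no value lies in `(v - ε, v)`.
2. The closure of `V(ℚ, T, m, l)` is compact and consists of kernel dimensions of complex `m × l`
   matrices with entries supported in `T`.
3. If `G` is countable, then there is a set `S` of complex numbers of the cardinality of the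
   continuum, algebraically independent over `ℚ`, such that for all `T`, `m`, `l` the kernel
   dimensions of the `m × l` matrices over `ℚ(S)[G]` with entries supported in `T` lie in the closure
   of `V(ℚ, T, m, l)`. -/
theorem result {G : Type u} [Group G] :
    (∀ (T : Finset G) (m l : ℕ), (rationalValues T m l).Countable ∧
      (∀ W ⊆ rationalValues T m l, W.Nonempty → ∃ r ∈ W, ∀ s ∈ W, s ≤ r) ∧
      (∀ v : ℝ, ∃ ε : ℝ, 0 < ε ∧ ∀ r ∈ rationalValues T m l, r ∉ Set.Ioo (v - ε) v) ∧
      IsCompact (closure (rationalValues T m l)) ∧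
      closure (rationalValues T m l) ⊆ values ⊤ T m l) ∧
    (∀ [Countable G], ∃ S : Set ℂ, #S = 𝔠 ∧ AlgebraicIndependent ℚ ((↑) : S → ℂ) ∧
      ∀ (T : Finset G) (m l : ℕ),
        values (Subfield.closure S) T m l ⊆ closure (rationalValues T m l)) := by
  constructor
  · intro T m l
    rw [rationalValues_eq]
    have hun : Uncountable (⊤ : Subfield ℂ) := by
      rw [← not_countable_iff]
      intro h
      have h1 : Function.Surjective (fun x : (⊤ : Subfield ℂ) => (x : ℂ)) := fun x =>
        ⟨⟨x, Subfield.mem_top _⟩, rfl⟩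
      exact not_countable_complex (Set.countable_univ_iff.2 h1.countable)
    have e : ℂ ≃+* (⊤ : Subfield ℂ) := Subfield.topEquiv.symm
    have hac : IsAlgClosed (⊤ : Subfield ℂ) := IsAlgClosed.of_ringEquiv ℂ (⊤ : Subfield ℂ) e
    have hsub : closure (values KQ T m l) ⊆ values (⊤ : Subfield ℂ) T m l :=
      closure_minimal (values_mono (fun x _ => Subfield.mem_top x) T m l) (values_closed ⊤ T m l)
    refine ⟨values_countable _ T m l, values_max _ T m l, ?_, ?_, hsub⟩
    · intro v
      by_cases hne : {r ∈ values KQ T m l | r < v}.Nonempty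
      · obtain ⟨r, hr, hmax⟩ := values_max KQ T m l {r ∈ values KQ T m l | r < v}
          (fun r hr => hr.1) hne
        refine ⟨v - r, sub_pos.2 hr.2, fun s hs hmem => ?_⟩
        have h1 := hmax s ⟨hs, hmem.2⟩
        have h2 := hmem.1
        linarith
      · exact ⟨1, one_pos, fun s hs hmem => hne ⟨s, hs, hmem.2⟩⟩
    · refine Metric.isCompact_of_isClosed_isBounded isClosed_closure ?_
      exact (Metric.isBounded_Icc 0 (m : ℝ)).subset
        (closure_minimal (values_bdd _ T m l) isClosed_Icc)
  · intro _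
    obtain ⟨S, hS, hind, h⟩ := V1132.GE.exists_large (Y := Ys G) KQ kds kds_nonneg kds_closed
      kds_smul
    refine ⟨S, hS, ?_, fun T m l => ?_⟩
    · exact hind.restrictScalars (R := ℚ) (K := KQ) (algebraMap ℚ KQ).injective
    · rw [rationalValues_eq]
      rintro r ⟨A, hA, hT, rfl⟩
      rw [Metric.mem_closure_iff]
      intro ε hε
      obtain ⟨b, -, hb1, hb2⟩ := h (m, l, T) (W649.ZL.coefT T A) (fun t =>
        mem_adjoin KQ S _ (Subfield.closure_mono Set.subset_union_right (hA _ _ _))) ε hε
      have h2 : kds (G := G) (m, l, T) (W649.ZL.coefT T A) = kerDim A := (kerDim_eq T A hT).symm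
      rw [h2] at hb1 hb2
      refine ⟨V1132.GE.kdim T m l (V1132.GE.up b), ?_, ?_⟩
      · rw [values_eq]
        exact ⟨b, rfl⟩
      · change kerDim A ≤ V1132.GE.kdim T m l (V1132.GE.up b) at hb1
        change V1132.GE.kdim T m l (V1132.GE.up b) < kerDim A + ε at hb2
        rw [Real.dist_eq, abs_lt]
        constructor <;> linarith

end Pool.Agent.Results.MP_95030e_al.RationalValues
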