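import Pool.Agent.V1132.GE.Tr

set_option autoImplicit false
set_option linter.unusedSectionVars false

universe u

namespace Pool.Agent.Results.MP_95030e_al.TranscendentalCoefficients

open MvPolynomial Cardinal Pool.Agent

/-- The kernel of right multiplication by the matrix `A` over the complex group ring on row vectors
of length `m` over `l2(G)`: all square-summable `x` with `x A = 0`. -/
def kernel {G : Type u} [Group G] {m l : ℕ} (A : Matrix (Fin m) (Fin l) (G →₀ ℂ)) :
    Set (lp (fun _ : Fin m × G => ℂ) 2) :=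
  {x | ∀ (j : Fin l) (g : G),
    ∑ k : Fin m, ∑ h ∈ (A k j).support, x (k, g * h⁻¹) * A k j h = 0}

open Classical in
/-- The von Neumann dimension of that kernel: the sum over `i` of one minus the square of the
distance from the basis vector at `(i, 1)` to the kernel, that is, the sum of the squared lengths
of the projections of these vectors to the kernel. -/
noncomputable def kerDim {G : Type u} [Group G] {m l : ℕ}
    (A : Matrix (Fin m) (Fin l) (G →₀ ℂ)) : ℝ :=
  ∑ i : Fin m, (1 - Metric.infDist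
    (lp.single (E := fun _ : Fin m × G => ℂ) 2 (i, (1 : G)) (1 : ℂ)) (kernel A) ^ 2)

/-- A rational matrix as a complex matrix. -/
noncomputable def complex {G : Type u} {m l : ℕ} (A : Matrix (Fin m) (Fin l) (G →₀ ℚ)) :
    Matrix (Fin m) (Fin l) (G →₀ ℂ) :=
  fun i j => (A i j).mapRange (fun q : ℚ => (q : ℂ)) Rat.cast_zero

/-- All coefficients of `B` lie in `K`. -/
def Over {G : Type u} {m l : ℕ} (K : Subfield ℂ) (B : Matrix (Fin m) (Fin l) (G →₀ ℂ)) : Prop :=
  ∀ i j g, B i j g ∈ K

/-- The kernel dimension of `A` is a limit from above of kernel dimensions of matrices over `K[G]`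
which have the same size and whose entries have supports contained in the supports of the entries
of `A`. -/
def LimitOf {G : Type u} [Group G] {m l : ℕ} (K : Subfield ℂ)
    (A : Matrix (Fin m) (Fin l) (G →₀ ℂ)) : Prop :=
  ∀ ε : ℝ, 0 < ε → ∃ B : Matrix (Fin m) (Fin l) (G →₀ ℂ), Over K B ∧
    (∀ i j, (B i j).support ⊆ (A i j).support) ∧ kerDim A ≤ kerDim B ∧ kerDim B < kerDim A + ε

section
variable {G : Type u} [Group G] {m l : ℕ}

theorem kerDim_eq (T : Finset G) (A : Matrix (Fin m) (Fin l) (G →₀ ℂ))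
    (hT : ∀ i j, (A i j).support ⊆ T) :
    kerDim A = V1132.GE.kdim T m l (W649.ZL.coefT T A) := by
  change _ = W649.ZL.kd (W649.ZL.famR (fun i : T × Fin m × Fin l => (i.1 : G))
    (fun i => i.2.1) (fun i => i.2.2)) (W649.ZL.coefT T A)
  rw [← W649.ZL.kerDimM_eq, W649.ZL.matM_coefT T A hT]
  unfold kerDim W649.ZL.kerDimM
  congr!

open Classical in
/-- the matrix with given coefficients -/
noncomputable def mat (T : Finset G) (b : T × Fin m × Fin l → ℂ) :
    Matrix (Fin m) (Fin l) (G →₀ ℂ) :=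
  fun i j => ∑ t : T, Finsupp.single (t : G) (b (t, i, j))

theorem mat_apply (T : Finset G) (b : T × Fin m × Fin l → ℂ) (i : Fin m) (j : Fin l) (t : T) :
    mat T b i j (t : G) = b (t, i, j) := by
  classical
  unfold mat
  rw [Finsupp.finsetSum_apply, Finset.sum_eq_single t]
  · simp
  · intro s _ hs
    rw [Finsupp.single_apply, if_neg]
    intro h
    exact hs (Subtype.ext h)
  · intro h
    exact absurd (Finset.mem_univ _) h

theorem mat_apply_of_notMem (T : Finset G) (b : T × Fin m × Fin l → ℂ) (i : Fin m) (j : Fin l)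
    (g : G) (hg : g ∉ T) : mat T b i j g = 0 := by
  classical
  unfold mat
  rw [Finsupp.finsetSum_apply]
  apply Finset.sum_eq_zero
  intro s _
  rw [Finsupp.single_apply, if_neg]
  intro h
  apply hg
  rw [← h]
  exact s.2

theorem mat_support (T : Finset G) (b : T × Fin m × Fin l → ℂ) (i : Fin m) (j : Fin l) :
    (mat T b i j).support ⊆ T := by
  intro g hg
  by_contra h
  exact (Finsupp.mem_support_iff.1 hg) (mat_apply_of_notMem T b i j g h)

theorem coefT_mat (T : Finset G) (b : T × Fin m × Fin l → ℂ) :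
    W649.ZL.coefT T (mat T b) = b := by
  funext t
  exact mat_apply T b t.2.1 t.2.2 t.1

/-- a common support -/
theorem exists_T (A : Matrix (Fin m) (Fin l) (G →₀ ℂ)) :
    ∃ T : Finset G, ∀ i j, (A i j).support ⊆ T := by
  classical
  refine ⟨Finset.univ.biUnion fun i : Fin m => Finset.univ.biUnion fun j : Fin l =>
    (A i j).support, fun i j x hx => ?_⟩
  simp only [Finset.mem_biUnion, Finset.mem_univ, true_and]
  exact ⟨i, j, hx⟩

theorem limitOf (K : Subfield ℂ) (A : Matrix (Fin m) (Fin l) (G →₀ ℂ)) (T : Finset G)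
    (hT : ∀ i j, (A i j).support ⊆ T)
    (h : ∀ ε : ℝ, 0 < ε → ∃ b : T × Fin m × Fin l → K, (∀ t, W649.ZL.coefT T A t = 0 → b t = 0) ∧
        V1132.GE.kdim T m l (W649.ZL.coefT T A) ≤ V1132.GE.kdim T m l (V1132.GE.up b) ∧
        V1132.GE.kdim T m l (V1132.GE.up b) < V1132.GE.kdim T m l (W649.ZL.coefT T A) + ε) :
    LimitOf K A := by
  intro ε hε
  obtain ⟨b, hb0, hb1, hb2⟩ := h ε hε
  refine ⟨mat T (V1132.GE.up b), ?_, ?_, ?_, ?_⟩
  · intro i j g
    by_cases hg : g ∈ T
    · have h1 := mat_apply T (V1132.GE.up b) i j ⟨g, hg⟩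
      rw [h1]
      exact (b _).2
    · rw [mat_apply_of_notMem T _ i j g hg]
      exact K.zero_mem
  · intro i j g hg
    have hgT : g ∈ T := mat_support T _ i j hg
    rw [Finsupp.mem_support_iff] at hg ⊢
    intro h0
    apply hg
    have h1 := mat_apply T (V1132.GE.up b) i j ⟨g, hgT⟩
    rw [h1]
    have h2 := hb0 (⟨g, hgT⟩, i, j) h0
    unfold V1132.GE.up
    rw [h2, map_zero]
  · rw [kerDim_eq T A hT, kerDim_eq T _ (mat_support T _), coefT_mat]
    exact hb1
  · rw [kerDim_eq T A hT, kerDim_eq T _ (mat_support T _), coefT_mat]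
    exact hb2

theorem integral_of_limitOf (K : Subfield ℂ) (d : ℕ) (A : Matrix (Fin m) (Fin l) (G →₀ ℂ))
    (hK : ∀ B : Matrix (Fin m) (Fin l) (G →₀ ℂ), Over K B → ∃ z : ℤ, (d : ℝ) * kerDim B = z)
    (hA : LimitOf K A) : ∃ z : ℤ, (d : ℝ) * kerDim A = z := by
  rcases Nat.eq_zero_or_pos d with rfl | hd
  · exact ⟨0, by simp⟩
  have hd' : (0 : ℝ) < d := Nat.cast_pos.2 hd
  -- the fractional part
  by_contra hcon
  push Not at hcon
  have h1 : (d : ℝ) * kerDim A < ⌈(d : ℝ) * kerDim A⌉ :=
    lt_of_le_of_ne (Int.le_ceil _) (hcon _)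
  set ε : ℝ := (⌈(d : ℝ) * kerDim A⌉ - (d : ℝ) * kerDim A) / d with hε
  have hε0 : 0 < ε := div_pos (sub_pos.2 h1) hd'
  obtain ⟨B, hB, -, h2, h3⟩ := hA ε hε0
  obtain ⟨z, hz⟩ := hK B hB
  have h4 : (d : ℝ) * kerDim A ≤ z := by
    rw [← hz]
    exact mul_le_mul_of_nonneg_left h2 hd'.le
  have h5 : (z : ℝ) < ⌈(d : ℝ) * kerDim A⌉ := by
    rw [← hz]
    calc (d : ℝ) * kerDim B < d * (kerDim A + ε) := mul_lt_mul_of_pos_left h3 hd'
      _ = ⌈(d : ℝ) * kerDim A⌉ := by
        rw [hε]
        field_simp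
        ring
  have h6 : ⌈(d : ℝ) * kerDim A⌉ ≤ z := Int.ceil_le.2 h4
  have h7 : z < ⌈(d : ℝ) * kerDim A⌉ := by exact_mod_cast h5
  omega

theorem kdim_smul (T : Finset G) (c : ℂ) (hc : c ≠ 0) (a : T × Fin m × Fin l → ℂ) :
    V1132.GE.kdim T m l (fun t => c * a t) = V1132.GE.kdim T m l a := by
  unfold V1132.GE.kdim
  congr 1
  have h1 : (fun t => c * a t) = c • a := rfl
  rw [h1, W649.ZL.lin_smul]
  ext f
  rw [LinearMap.mem_ker, LinearMap.mem_ker]
  change c • W649.ZL.lin _ a f = 0 ↔ W649.ZL.lin _ a f = 0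
  rw [smul_eq_zero]
  exact ⟨fun h => h.resolve_left hc, Or.inr⟩

end

/-- the index set of the families -/
abbrev Om (G : Type u) := ℕ × ℕ × Finset G

/-- the families -/
abbrev Ys (G : Type u) (ω : Om G) : Type u := ω.2.2 × Fin ω.1 × Fin ω.2.1

/-- the kernel dimensions -/
noncomputable def kds {G : Type u} [Group G] (ω : Om G) : (Ys G ω → ℂ) → ℝ :=
  V1132.GE.kdim ω.2.2 ω.1 ω.2.1

section
variable {G : Type u} [Group G]

theorem kds_nonneg (ω : Om G) (a : Ys G ω → ℂ) : 0 ≤ kds ω a := by
  unfold kds V1132.GE.kdim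
  exact W649.ZL.vd_nonneg _

theorem kds_closed (ω : Om G) (d : ℝ) :
    zeroLocus ℂ (vanishingIdeal ℂ {a | d ≤ kds ω a}) = {a | d ≤ kds ω a} :=
  W649.ZL.locus_closed (W649.ZL.famR (fun i : ω.2.2 × Fin ω.1 × Fin ω.2.1 => (i.1 : G))
    (fun i => i.2.1) (fun i => i.2.2)) (W649.ZL.famR_eqv _ _ _) d

theorem kds_smul (ω : Om G) (c : ℂ) (a : Ys G ω → ℂ) (hc : c ≠ 0) :
    kds ω (fun t => c * a t) = kds ω a :=
  kdim_smul ω.2.2 c hc a

end

theorem mem_adjoin (K : Subfield ℂ) (S : Set ℂ) (x : ℂ) (hx : x ∈ Subfield.closure (K ∪ S)) :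
    x ∈ IntermediateField.adjoin K S := by
  have h2 : Subfield.closure (K ∪ S) ≤ (IntermediateField.adjoin K S).toSubfield := by
    rw [Subfield.closure_le, Set.union_subset_iff]
    constructor
    · intro a ha
      exact (IntermediateField.adjoin K S).algebraMap_mem ⟨a, ha⟩
    · exact IntermediateField.subset_adjoin K S
  exact h2 hx

/-- The general theorem. -/
theorem general {G : Type u} [Group G] [Countable G] (K : Subfield ℂ) [Countable K] :
    (∀ p : ℕ, ∃ Q : ℕ → MvPolynomial (Fin p) ℂ, (∀ n, Q n ≠ 0) ∧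
      ∀ z : Fin p → ℂ, (∀ n, eval z (Q n) ≠ 0) →
        ∀ (m l : ℕ) (A : Matrix (Fin m) (Fin l) (G →₀ ℂ)),
          Over (Subfield.closure (K ∪ Set.range z)) A → LimitOf K A) ∧
    (∃ S : Set ℂ, #S = 𝔠 ∧ AlgebraicIndependent K ((↑) : S → ℂ) ∧
      ∀ (m l : ℕ) (A : Matrix (Fin m) (Fin l) (G →₀ ℂ)),
        Over (Subfield.closure (K ∪ S)) A → LimitOf K A) := by
  refine ⟨?_, ?_⟩
  · intro p
    obtain ⟨Q, hQ0, hQ⟩ := V1132.GE.familyP (Y := Ys G) K kds kds_nonneg kds_closed kds_smul p
    refine ⟨Q, hQ0, fun z hz m l A hA => ?_⟩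
    obtain ⟨T, hT⟩ := exists_T A
    refine limitOf K A T hT fun ε hε => ?_
    exact (hQ z hz).2 (m, l, T) _ (fun t => mem_adjoin K _ _ (hA _ _ _)) ε hε
  · obtain ⟨S, hS, hind, h⟩ := V1132.GE.exists_large (Y := Ys G) K kds kds_nonneg kds_closed
      kds_smul
    refine ⟨S, hS, hind, fun m l A hA => ?_⟩
    obtain ⟨T, hT⟩ := exists_T A
    refine limitOf K A T hT fun ε hε => ?_
    exact h (m, l, T) _ (fun t => mem_adjoin K _ _ (hA _ _ _)) ε hε

/-- **Transcendental coefficients.** Let `G` be a countable group and `K` a countable subfield of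
`ℂ`, for instance `K = ℚ`.

1. For every `p` there are countably many nonzero polynomials in `p` variables such that for every
   `z` in `ℂ^p` which is a zero of none of them, all kernel dimensions of matrices over `G` with
   coefficients in `K(z₁, …, z_p)` are limits from above of kernel dimensions of matrices over
   `K[G]` of the same size and with smaller supports. For `p = 1` this says: for all but countably
   many complex numbers `z`.
2. There is a set `S` of complex numbers of the cardinality of the continuum which is algebraically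
   independent over `K`, such that the same is true for all matrices with coefficients in `K(S)`.
3. If the kernel dimensions of all matrices over `K[G]` are integers, then so are all their limits as
   in 1 and 2.
4. Suppose that `G` satisfies the Atiyah conjecture: all kernel dimensions of rational matrices over
   `G` are integers. Then there is a set `S` of complex numbers of the cardinality of the continuum
   which is algebraically independent over `ℚ` such that the kernel dimensions of all matrices over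
   `F[G]`, `F = ℚ(S)`, are integers. -/
theorem result {G : Type u} [Group G] [Countable G] :
    (∀ (K : Subfield ℂ) [Countable K],
      (∀ p : ℕ, ∃ Q : ℕ → MvPolynomial (Fin p) ℂ, (∀ n, Q n ≠ 0) ∧
        ∀ z : Fin p → ℂ, (∀ n, eval z (Q n) ≠ 0) →
          ∀ (m l : ℕ) (A : Matrix (Fin m) (Fin l) (G →₀ ℂ)),
            Over (Subfield.closure (K ∪ Set.range z)) A → LimitOf K A) ∧
      (∃ S : Set ℂ, #S = 𝔠 ∧ AlgebraicIndependent K ((↑) : S → ℂ) ∧
        ∀ (m l : ℕ) (A : Matrix (Fin m) (Fin l) (G →₀ ℂ)),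
          Over (Subfield.closure (K ∪ S)) A → LimitOf K A) ∧
      ((∀ (m l : ℕ) (B : Matrix (Fin m) (Fin l) (G →₀ ℂ)), Over K B →
          ∃ z : ℤ, kerDim B = z) →
        ∀ (m l : ℕ) (A : Matrix (Fin m) (Fin l) (G →₀ ℂ)), LimitOf K A →
          ∃ z : ℤ, kerDim A = z)) ∧
    ((∀ (m l : ℕ) (A : Matrix (Fin m) (Fin l) (G →₀ ℚ)), ∃ z : ℤ, kerDim (complex A) = z) →
      ∃ S : Set ℂ, #S = 𝔠 ∧ AlgebraicIndependent ℚ ((↑) : S → ℂ) ∧
        ∀ (m l : ℕ) (A : Matrix (Fin m) (Fin l) (G →₀ ℂ)), Over (Subfield.closure S) A →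
          ∃ z : ℤ, kerDim A = z) := by
  have h3 : ∀ K : Subfield ℂ, (∀ (m l : ℕ) (B : Matrix (Fin m) (Fin l) (G →₀ ℂ)), Over K B →
      ∃ z : ℤ, kerDim B = z) → ∀ (m l : ℕ) (A : Matrix (Fin m) (Fin l) (G →₀ ℂ)), LimitOf K A →
        ∃ z : ℤ, kerDim A = z := by
    intro K hK m l A hA
    obtain ⟨z, hz⟩ := integral_of_limitOf K 1 A (fun B hB => by
      obtain ⟨z, hz⟩ := hK m l B hB
      exact ⟨z, by rw [hz]; simp⟩) hA
    exact ⟨z, by simpa using hz⟩
  refine ⟨fun K _ => ⟨(general K).1, (general K).2, h3 K⟩, fun hQ => ?_⟩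
  let K : Subfield ℂ := (algebraMap ℚ ℂ).fieldRange
  have hsurj : Function.Surjective (algebraMap ℚ ℂ).rangeRestrictField := by
    rintro ⟨x, q, rfl⟩
    exact ⟨q, rfl⟩
  have hKc : Countable K := hsurj.countable
  obtain ⟨S, hS, hind, h⟩ := (general (G := G) K).2
  refine ⟨S, hS, ?_, fun m l A hA => ?_⟩
  · exact hind.restrictScalars (R := ℚ) (K := K) (algebraMap ℚ K).injective
  · have hK : ∀ (m l : ℕ) (B : Matrix (Fin m) (Fin l) (G →₀ ℂ)), Over K B →
        ∃ z : ℤ, kerDim B = z := by
      intro m l B hB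
      choose q hq using fun i j g => hB i j g
      let A' : Matrix (Fin m) (Fin l) (G →₀ ℚ) := fun i j =>
        Finsupp.onFinset (B i j).support (q i j) (by
          intro g hg
          rw [Finsupp.mem_support_iff, ← hq i j g]
          intro h0
          apply hg
          exact (map_eq_zero (algebraMap ℚ ℂ)).1 h0)
      have h4 : complex A' = B := by
        funext i j
        ext g
        change ((q i j g : ℚ) : ℂ) = B i j g
        exact hq i j g
      rw [← h4]
      exact hQ m l A'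
    refine h3 K hK m l A (h m l A ?_)
    intro i j g
    exact Subfield.closure_mono Set.subset_union_right (hA i j g)

end Pool.Agent.Results.MP_95030e_al.TranscendentalCoefficients
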